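import Pool.Agent.Mg.F14ad9d.G7e4182

open MeasureTheory Pool.Agent.MP_7a4cc0_an

theorem Pool.Agent.Results.MP_7a4cc0_an.Exotic.result :
    ∃ Γ : Subgroup G, RigidAcylindrical Γ ∧
      ∃ μ : Measure (Frame Γ), IsLocallyFiniteMeasure μ ∧ μ ≠ 0 ∧ μ (RFplus Γ)ᶜ = 0 ∧
        (∀ (t : ℝ) (E : Set (Frame Γ)), MeasurableSet E → μ (rmul (nz t) ⁻¹' E) = μ E) ∧
        (∀ E : Set (Frame Γ), MeasurableSet E →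
          (∀ t : ℝ, rmul (nz t) ⁻¹' E =ᵐ[μ] E) → μ E = 0 ∨ μ Eᶜ = 0) ∧
        (∃ (z : ℂ) (E : Set (Frame Γ)), MeasurableSet E ∧ μ (rmul (nz z) ⁻¹' E) ≠ μ E) ∧
        ∀ (x : Frame Γ) (z : ℂ), IsClosed (orbitH x) → μ (rmul (nz z) '' orbitH x) = 0 :=
  Pool.Agent.MP_7a4cc0_an.main
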